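import Pool.Agent.Helper520.MZ.Levels

/-!
# A metric space with an admissible compactification and without large transfinite dimension

Definitions of the notions in the question, and the theorem.
-/

namespace Pool.Agent.Results.MP_582b9d_gt.NoTrInd

open Set Topology

/-- `TrIndLE α X` says `trInd X ≤ α` (large transfinite dimension, `α ≥ 0` an ordinal):
for every closed `A` and every open `V ⊇ A` there is an open `U` with `A ⊆ U ⊆ V` such that the
boundary of `U` is empty (i.e. has `trInd = -1`) or has `trInd ≤ β` for some ordinal `β < α`. -/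
def TrIndLE (α : Ordinal.{0}) (X : Type) [TopologicalSpace X] : Prop :=
  ∀ A V : Set X, IsClosed A → IsOpen V → A ⊆ V →
    ∃ U : Set X, IsOpen U ∧ A ⊆ U ∧ U ⊆ V ∧
      (frontier U = ∅ ∨ ∃ β : Ordinal.{0}, ∃ _ : β < α, TrIndLE β (frontier U))
termination_by α

/-- `X` has large transfinite dimension: `trInd X ≤ α` for some ordinal `α`. -/
def HasTrInd (X : Type) [TopologicalSpace X] : Prop := ∃ α : Ordinal.{0}, TrIndLE α X

/-- `X` is a normal space with `Ind X < ∞`. -/
def FiniteInd (X : Type) [TopologicalSpace X] : Prop :=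
  NormalSpace X ∧ ∃ n : ℕ, TrIndLE (n : Ordinal.{0}) X

/-- `X` is the union of a sequence of subspaces of finite large inductive dimension. -/
def CountableDimensional (X : Type) [TopologicalSpace X] : Prop :=
  ∃ S : ℕ → Set X, (⋃ i, S i) = univ ∧ ∀ i, FiniteInd (S i)

/-- `X` has an admissible compactification `K`: a compact Hausdorff space containing a dense copy
`e '' X` of `X`, countable-dimensional, every point of `K ∖ X` having a neighbourhood of finite
large inductive dimension. -/
def HasAdmissibleCompactification (X : Type) [TopologicalSpace X] : Prop :=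
  ∃ (K : Type) (_ : TopologicalSpace K) (e : X → K),
    CompactSpace K ∧ T2Space K ∧ IsEmbedding e ∧ DenseRange e ∧
    CountableDimensional K ∧
    ∀ y : K, y ∉ range e → ∃ U ∈ 𝓝 y, FiniteInd U

/-! ### Zero-dimensional compact spaces -/

theorem finiteInd_of_compact (K : Type) [TopologicalSpace K] [CompactSpace K] [T2Space K]
    [TotallyDisconnectedSpace K] : FiniteInd K := by
  refine ⟨inferInstance, 0, ?_⟩
  rw [TrIndLE]
  intro A V hA hV hAV
  obtain ⟨C, hC, hAC, hCV⟩ := exists_clopen_of_closed_subset_open hA hV hAV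
  exact ⟨C, hC.isOpen, hAC, hCV, Or.inl hC.frontier_eq⟩

theorem exists_compactification (X : Type) [TopologicalSpace X] [T0Space X]
    (hX : ∀ p : X, ∀ O : Set X, IsOpen O → p ∈ O → ∃ C : Set X, IsClopen C ∧ p ∈ C ∧ C ⊆ O) :
    ∃ (K : Type) (_ : TopologicalSpace K) (e : X → K), CompactSpace K ∧ T2Space K ∧
      TotallyDisconnectedSpace K ∧ IsEmbedding e ∧ DenseRange e := by
  classical
  let e0 : X → ({C : Set X // IsClopen C} → Bool) := fun x C => C.1.boolIndicator x
  have hc : Continuous e0 :=
    continuous_pi fun C => (continuous_boolIndicator_iff_isClopen C.1).2 C.2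
  have hind : IsInducing e0 := by
    rw [isInducing_iff_nhds]
    intro x
    refine le_antisymm (Filter.map_le_iff_le_comap.1 hc.continuousAt) ?_
    intro s hs
    obtain ⟨O, hOs, hO, hxO⟩ := mem_nhds_iff.1 hs
    obtain ⟨C, hC, hxC, hCO⟩ := hX x O hO hxO
    refine Filter.mem_comap.2 ⟨{g | g ⟨C, hC⟩ = true}, ?_, ?_⟩
    · refine IsOpen.mem_nhds ?_ ?_
      · have h1 : Continuous (fun g : {C : Set X // IsClopen C} → Bool => g ⟨C, hC⟩) :=
          continuous_apply _
        exact (isOpen_discrete ({true} : Set Bool)).preimage h1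
      · show C.boolIndicator x = true
        exact (C.mem_iff_boolIndicator x).1 hxC
    · intro y hy
      exact hOs (hCO ((C.mem_iff_boolIndicator y).2 hy))
  have hemb : IsEmbedding e0 := hind.isEmbedding
  refine ⟨closure (range e0), inferInstance,
    Set.codRestrict e0 _ (fun x => subset_closure (mem_range_self x)),
    isCompact_iff_compactSpace.1 isClosed_closure.isCompact, inferInstance, inferInstance,
    hemb.codRestrict _ _, ?_⟩
  rintro ⟨y, hy⟩
  rw [closure_subtype]
  convert hy using 1
  congr 1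
  ext z
  constructor
  · rintro ⟨w, ⟨x, rfl⟩, rfl⟩
    exact ⟨x, rfl⟩
  · rintro ⟨x, rfl⟩
    exact ⟨_, ⟨x, rfl⟩, rfl⟩

theorem hasAdmissibleCompactification (X : Type) [TopologicalSpace X] [T0Space X]
    (hX : ∀ p : X, ∀ O : Set X, IsOpen O → p ∈ O → ∃ C : Set X, IsClopen C ∧ p ∈ C ∧ C ⊆ O) :
    HasAdmissibleCompactification X := by
  obtain ⟨K, tK, e, h1, h2, h3, h4, h5⟩ := exists_compactification X hX
  have huniv : FiniteInd (univ : Set K) := by
    have : CompactSpace (univ : Set K) := isCompact_iff_compactSpace.1 isCompact_univ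
    exact finiteInd_of_compact _
  exact ⟨K, tK, e, h1, h2, h4, h5, ⟨fun _ => univ, iUnion_const _, fun _ => huniv⟩,
    fun y _ => ⟨univ, Filter.univ_mem, huniv⟩⟩

/-! ### The descent -/

open Pool.Agent.Helper520.MZ in
theorem descent (X : ℕ → Type) [∀ n, MetricSpace (X n)] (M : ∀ n, Set (X n))
    (h : ∀ n, ℕ → X n → ℝ) (hLip : ∀ n i p q, |h n i p - h n i q| ≤ dist p q)
    (hne : ∀ n, ¬ Lev (h n) (M n) n ∅) :
    ∀ (α : Ordinal.{0}) (k : ℕ) (Y : Type) [TopologicalSpace Y] (f : Y → Σ n, X n),
      IsEmbedding f → (∀ n ≥ k, Lev (h n) (M n) k {x | ∃ y, f y = ⟨n, x⟩}) → ¬ TrIndLE α Y := by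
  intro α
  induction α using WellFoundedLT.induction with
  | ind α ih =>
  intro k Y tY f hf hLev hY
  rw [TrIndLE] at hY
  let H : (Σ n, X n) → ℝ := fun p => if k < p.1 then h p.1 k p.2 else 1 / 2
  have hH : Continuous H := by
    rw [continuous_sigma_iff]
    intro n
    by_cases hn : k < n
    · simp only [H, if_pos hn]
      rw [Metric.continuous_iff]
      intro b ε hε
      refine ⟨ε, hε, fun a ha => ?_⟩
      rw [Real.dist_eq]
      exact (hLip n k a b).trans_lt ha
    · simp only [H, if_neg hn]
      exact continuous_const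
  have hHf : Continuous (fun y => H (f y)) := hH.comp hf.continuous
  obtain ⟨U, hU, hAU, hUV, hfr⟩ := hY {y | H (f y) ≤ 1 / 3} {y | H (f y) < 1 / 2}
    (isClosed_le hHf continuous_const) (isOpen_lt hHf continuous_const)
    (fun y (hy : H (f y) ≤ 1 / 3) => show H (f y) < 1 / 2 by linarith)
  have hcl : ∀ y ∈ closure U, H (f y) ≤ 1 / 2 := fun y hy =>
    closure_lt_subset_le hHf continuous_const (closure_mono hUV hy)
  obtain ⟨U', hU', hUU'⟩ := hf.isInducing.isOpen_iff.1 hU
  obtain ⟨W', hW', hWW'⟩ := hf.isInducing.isOpen_iff.1 (isClosed_closure (s := U)).isOpen_compl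
  have hUiff : ∀ y, f y ∈ U' ↔ y ∈ U := fun y => by rw [← hUU']; rfl
  have hWiff : ∀ y, f y ∈ W' ↔ y ∉ closure U := fun y => by
    rw [← mem_compl_iff, ← hWW']; rfl
  have key : ∀ n ≥ k + 1, Lev (h n) (M n) (k + 1) {x | ∃ y ∈ frontier U, f y = ⟨n, x⟩} := by
    intro n hn
    refine ⟨_, Sigma.mk n ⁻¹' U', Sigma.mk n ⁻¹' W', hLev n (by omega),
      hU'.preimage continuous_sigmaMk, hW'.preimage continuous_sigmaMk, ?_, ?_, ?_, ?_⟩
    · rw [eq_empty_iff_forall_notMem]
      rintro x ⟨⟨⟨y, hy⟩, hx1⟩, hx2⟩
      have h1 : f y ∈ U' := by rw [hy]; exact hx1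
      have h2 : f y ∈ W' := by rw [hy]; exact hx2
      exact (hWiff y).1 h2 (subset_closure ((hUiff y).1 h1))
    · rintro x ⟨y, hy⟩ hx
      have h1 : y ∈ U := hAU (by
        show H (f y) ≤ 1 / 3
        rw [hy]
        simpa only [H, if_pos (show k < n by omega)] using hx)
      have h2 := (hUiff y).2 h1
      rw [hy] at h2
      exact h2
    · rintro x ⟨y, hy⟩ hx
      have h1 : y ∉ closure U := fun hcon => by
        have h3 := hcl y hcon
        rw [hy] at h3
        simp only [H, if_pos (show k < n by omega)] at h3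
        linarith
      have h2 := (hWiff y).2 h1
      rw [hy] at h2
      exact h2
    · ext x
      constructor
      · rintro ⟨y, hy1, hy2⟩
        refine ⟨⟨y, hy2⟩, ?_⟩
        rw [hU.frontier_eq] at hy1
        rintro (hx | hx)
        · have h1 : f y ∈ U' := by rw [hy2]; exact hx
          exact hy1.2 ((hUiff y).1 h1)
        · have h1 : f y ∈ W' := by rw [hy2]; exact hx
          exact (hWiff y).1 h1 hy1.1
      · rintro ⟨⟨y, hy⟩, hx⟩
        refine ⟨y, ?_, hy⟩
        rw [hU.frontier_eq]
        constructor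
        · by_contra hcon
          apply hx
          right
          have h2 := (hWiff y).2 hcon
          rw [hy] at h2
          exact h2
        · intro hcon
          apply hx
          left
          have h2 := (hUiff y).2 hcon
          rw [hy] at h2
          exact h2
  rcases hfr with hfr | ⟨β, hβ, hfr⟩
  · apply hne (k + 1)
    have := key (k + 1) le_rfl
    rw [hfr] at this
    simpa using this
  · refine ih β hβ (k + 1) (frontier U) (fun y => f y) (hf.comp IsEmbedding.subtypeVal) ?_ hfr
    intro n hn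
    have := key n hn
    convert this using 2
    ext x
    constructor
    · rintro ⟨y, hy⟩
      exact ⟨y, y.2, hy⟩
    · rintro ⟨y, hy1, hy2⟩
      exact ⟨⟨y, hy1⟩, hy2⟩

open Pool.Agent.Helper520.MZ in
/-- There is a metric space which has an admissible compactification but no large transfinite
dimension. -/
theorem result : ∃ (X : Type) (_ : MetricSpace X),
    HasAdmissibleCompactification X ∧ ¬ HasTrInd X := by
  choose X mX M h hLip hind hcube using fun n => machine n Unit
  let m : MetricSpace (Σ n, M n) := Metric.Sigma.metricSpace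
  refine ⟨Σ n, M n, m, ?_, ?_⟩
  · refine @hasAdmissibleCompactification (Σ n, M n) _ inferInstance ?_
    rintro ⟨n, p⟩ O hO hp
    have h1 : IsOpen (Sigma.mk n ⁻¹' O) := hO.preimage continuous_sigmaMk
    obtain ⟨O', hO', hOO'⟩ := isOpen_induced_iff.1 h1
    have hpO' : (p : X n) ∈ O' := by
      have : p ∈ Subtype.val ⁻¹' O' := by rw [hOO']; exact hp
      exact this
    obtain ⟨V, hV, hpV, hVO, hMV⟩ := hind n p O' hO' hpO'
    have hclopen : IsClopen (Subtype.val ⁻¹' V : Set (M n)) := by
      refine ⟨?_, hV.preimage continuous_subtype_val⟩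
      have : (Subtype.val ⁻¹' V : Set (M n)) = Subtype.val ⁻¹' (closure V) := by
        ext y
        exact ⟨fun hy => subset_closure hy, fun hy => hMV ⟨y.2, hy⟩⟩
      rw [this]
      exact isClosed_closure.preimage continuous_subtype_val
    refine ⟨Sigma.mk n '' (Subtype.val ⁻¹' V), ?_, ⟨p, hpV, rfl⟩, ?_⟩
    · exact ⟨Topology.IsClosedEmbedding.sigmaMk.isClosedMap _ hclopen.1,
        isOpenMap_sigmaMk _ hclopen.2⟩
    · rintro _ ⟨y, hy, rfl⟩
      have : y ∈ Subtype.val ⁻¹' O' := hVO hy
      rw [hOO'] at this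
      exact this
  · rintro ⟨α, hα⟩
    refine descent X M h hLip (fun n => Lev.not_empty (hLip n) n (hcube n)) α 0 (Σ n, M n)
      (Sigma.map id fun n (x : M n) => (x : X n)) ?_ ?_ hα
    · exact (isEmbedding_sigmaMap Function.injective_id).2 fun n => IsEmbedding.subtypeVal
    · intro n _
      show {x | ∃ y : Σ n, M n, (⟨y.1, y.2⟩ : Σ n, X n) = ⟨n, x⟩} = M n
      ext x
      constructor
      · rintro ⟨⟨n', y⟩, hy⟩
        simp only [Sigma.mk.injEq] at hy
        obtain ⟨rfl, hy⟩ := hy
        rw [← eq_of_heq hy]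
        exact y.2
      · intro hx
        exact ⟨⟨n, x, hx⟩, rfl⟩

end Pool.Agent.Results.MP_582b9d_gt.NoTrInd
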